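import Pool.Agent.MP_5f6c2d_pr.Sy.Spec

/- The two-sided path in the words of the frozen statement. -/

set_option autoImplicit false
open scoped Classical

namespace Pool.Agent.MP_5f6c2d_pr.Sy

open h58 I29 I29.Bri

namespace BrL

theorem step_symm {ω : Om} {Q R : Finset Cl} (h : Step ω Q R) : Step ω R Q := by
  obtain ⟨a, b, c, d, e, f, g⟩ := h
  rw [Finset.inter_comm] at f g
  exact ⟨b, a, c.symm, e, d, f, g⟩

theorem sum_alc (s : St) : ∑ v ∈ alc s, v = io (cs s) := by
  obtain ⟨n1, n2, n3⟩ := cell_ne s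
  rw [alc, Finset.sum_insert (not_fac s), fac,
    Finset.sum_insert (by simp [io_inj.ne n1, io_inj.ne n2]), Finset.sum_pair (io_inj.ne n3)]
  simp only [cs, io_add, add_assoc]

theorem half {ω : Om} {s : St} {x : ℤ → Finset Cl} (hi : Function.Injective x)
    (hs : ∀ k, Step ω (x k) (x (k + 1))) (h1 : x 0 = alc s) (h2 : x 0 ∩ x 1 = fac s) (t : ℕ) :
    x t = alc (X (fun u => ω (io u)) s t) :=
  (follow (x := fun n : ℕ => x n) (n := t) (hi.comp Nat.cast_injective).injOn
    (fun k _ => hs k) h1 h2 t).1 le_rfl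

theorem inf_at {ω : Om} {s : St} {x : ℤ → Finset Cl} (hi : Function.Injective x)
    (hs : ∀ k, Step ω (x k) (x (k + 1))) (h1 : x 0 = alc s) (h2 : x 0 ∩ x 1 = fac s) :
    Inf (fun u => ω (io u)) s := by
  refine ⟨(step1 (hs 0) h1 h2).2, fun t ht e => ?_⟩
  have h3 := half hi hs h1 h2 t
  rw [e, ← h1] at h3
  have := hi h3
  omega

theorem both {ω : Om} {s : St} {x : ℤ → Finset Cl} (hi : Function.Injective x)
    (hs : ∀ k, Step ω (x k) (x (k + 1))) (h1 : x 0 = alc s) (h2 : x 0 ∩ x 1 = fac s) (k : ℤ) :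
    x k = alc (Y (fun u => ω (io u)) s k) := by
  rcases le_total 0 k with h | h
  · lift k to ℕ using h
    rw [Y_nat, half hi hs h1 h2]
  · obtain ⟨t, rfl⟩ : ∃ t : ℕ, k = 1 - t := ⟨(1 - k).toNat, by omega⟩
    have := half (ω := ω) (s := h58.flip s) (x := fun k => x (1 - k))
      (fun a b e => by have := hi e; omega)
      (fun k => by
        have := step_symm (hs (1 - (k + 1)))
        rwa [show 1 - (k + 1) + 1 = 1 - k by ring] at this)
      (by simpa using (step1 (hs 0) h1 h2).1) (by rw [fac_flip, ← h2, Finset.inter_comm]; rfl) t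
    rw [← Y_nat, Y_flip, ← alc_nxt (fun u => ω (io u)), ← Y_succ, neg_add_eq_sub] at this
    exact this

theorem cells : io (cell sS 0) = ![1, 1, -1] ∧ io (cell sS 1) = ![0, 0, 0] ∧
    io (cell sS 2) = ![1, 1, 1] ∧ io (cell sS 3) = ![2, 0, 0] ∧
    io (cell (h58.flip sS) 0) = ![1, -1, 1] := by decide +kernel

theorem fac_sS : fac sS = {![0, 0, 0], ![2, 0, 0], ![1, 1, 1]} := by
  ext v
  simp only [fac, cells.2.1, cells.2.2.1, cells.2.2.2.1, Finset.mem_insert, Finset.mem_singleton]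
  tauto

theorem cl0_eq : ∀ a c e : Fin 4, a ≠ c → a ≠ e → c ≠ e → ∀ a' c' e' : Fin 4, a' ≠ c' →
    (∀ k, ∃ k', cl0 a' c' e' k = cl0 a c e k') → a' = a ∧ c' = c ∧ e' = e := by
  decide +kernel

theorem cell_cl (s : St) (k : Fin 4) : cell s k = s.1 + cl0 (s.2 0) (s.2 1) (s.2 3) k := by
  fin_cases k <;> simp [cell, cl0, add_assoc, sub_eq_add_neg]

theorem alc_eq0 {s s' : St} (h : alc s' = alc s) (e : cell s' 0 = cell s 0) : s' = s := by
  have e' : s'.1 = s.1 := e
  obtain ⟨a, b, c⟩ := cl0_eq _ _ _ (p_ne s (α := 0) (β := 1) (by decide))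
    (p_ne s (α := 0) (β := 3) (by decide)) (p_ne s (α := 1) (β := 3) (by decide)) (s'.2 0) (s'.2 1)
    (s'.2 3) (p_ne s' (by decide)) fun k => by
      obtain ⟨k', hk⟩ := mem_alc (s := s) (v := io (cell s' k))
        (by rw [← h]; fin_cases k <;> simp [alc, fac])
      have := io_inj hk
      rw [cell_cl, cell_cl, e'] at this
      exact ⟨k', add_left_cancel this⟩
  refine St.ext4 e' a b ?_ c
  obtain ⟨j, hj⟩ := s.2.surjective (s'.2 2)
  fin_cases j
  · exact absurd (a.trans hj) (p_ne s' (by decide))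
  · exact absurd (b.trans hj) (p_ne s' (by decide))
  · exact hj.symm
  · exact absurd (c.trans hj) (p_ne s' (by decide))

theorem alc_eq {ζ : Om} {s s' : St} (h : alc s' = alc s) (t : tri ζ s) (t' : tri ζ s')
    (c : chi ζ s' ↔ chi ζ s) : s' = s := by
  have n : turn ζ s ≠ s' := fun e => by
    have := chi_turn t
    rw [e] at this
    tauto
  obtain ⟨t1, t2, t3⟩ := id t
  obtain ⟨k, hk⟩ := mem_alc (s := s) (v := io (cell s' 0)) (by rw [← h]; simp [alc])
  have hk := io_inj hk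
  fin_cases k
  · exact alc_eq0 h hk
  · obtain rfl : s' = rot s := alc_eq0 (by rw [alc_rot, h]) hk
    simp only [tri, cell_rot1, cell_rot2, cell_rot3] at t'
    exact absurd (turn_eq1 t (by omega)) n
  · obtain rfl : s' = rot (rot s) := alc_eq0 (by simp only [alc_rot, h]) (by simpa using hk)
    simp only [tri, cell_rot0, cell_rot1, cell_rot2, cell_rot3] at t'
    exact absurd (turn_eq2 t (by omega)) n
  · obtain rfl : s' = rot (rot (rot s)) :=
      alc_eq0 (by simp only [alc_rot, h]) (by simpa using hk)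
    simp only [tri, cell_rot0, cell_rot1, cell_rot2, cell_rot3] at t'
    exact absurd (turn_eq3 t (by omega)) n

theorem all_Y {ζ : Om} {s : St} (h : Inf ζ s) (k : ℤ) :
    Inf ζ (Y ζ s k) ∧ (chi ζ (Y ζ s k) ↔ chi ζ s) := by
  induction k using Int.induction_on with
  | zero => simpa using h
  | succ k ih => rw [Y_succ, Inf_nxt, chi_nxt ih.1.1]; exact ih
  | pred k ih =>
    rw [← sub_add_cancel (-(k : ℤ)) 1, Y_succ, Inf_nxt] at ih
    exact ⟨ih.1, (chi_nxt ih.1.1).symm.trans ih.2⟩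

theorem Y_inj {ζ : Om} {s : St} (h : Inf ζ s) : Function.Injective (Y ζ s) := by
  have key : ∀ j k, j < k → Y ζ s k ≠ Y ζ s j := fun j k l e => by
    obtain ⟨t, rfl⟩ : ∃ t : ℕ, k = j + t := ⟨(k - j).toNat, by omega⟩
    rw [← Y_add, Y_nat] at e
    exact (all_Y h j).1.2 t (by omega) e
  intro j k e
  rcases lt_trichotomy j k with l | l | l
  exacts [absurd e.symm (key j k l), l, absurd e (key k j l)]

end BrL

open BrL in
theorem br : BR := by
  intro ω
  refine ⟨⟨fun ⟨x, hi, hs, e⟩ => ?_, fun h => ⟨fun k => alc (Y (fun u => ω (io u)) sS k),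
    fun j k e => Y_inj h (alc_eq e (all_Y h k).1.1 (all_Y h j).1.1
      ((all_Y h j).2.trans (all_Y h k).2.symm)), fun k => ?_, ?_⟩⟩, fun x h0 h1 hi hs k => ?_⟩
  · rw [← fac_sS] at e
    rcases clique (hs 0).1 (hs 0).2.2.2.1 (s := sS) (e ▸ Finset.inter_subset_left) with d | d
    · exact inf_at hi hs d e
    · exact (Inf_flip _ _).1 (inf_at hi hs d (e.trans (fac_flip _).symm))
  · obtain ⟨a, b, c, d, e, f, g⟩ := step_of (all_Y h k).1.1
    beta_reduce
    rw [Y_succ, alc_nxt]
    refine ⟨a, b, c, d, e, f, fun i => (g i).imp fun v hv => ⟨hv.1, ?_⟩⟩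
    obtain ⟨j, rfl⟩ := mem_alc (Finset.mem_inter.1 hv.1).1
    simpa only [k0_io] using hv.2
  · beta_reduce
    rw [Y_zero, Y_one, alc_nxt, alc_inter, fac_sS]
  · have a0 : x 0 = alc sS := by
      rw [h0, alc, fac_sS, cells.1]
      ext v
      simp only [Finset.mem_insert, Finset.mem_singleton]
      tauto
    have a1 : x 1 = alc (h58.flip sS) := by
      rw [h1, alc, fac_flip, fac_sS, cells.2.2.2.2]
      ext v
      simp only [Finset.mem_insert, Finset.mem_singleton]
      tauto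
    rw [both hi hs a0 (by rw [a0, a1, alc_inter]) k, sum_alc, D, add_sub_cancel]

end Pool.Agent.MP_5f6c2d_pr.Sy
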