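import Pool.Agent.MP_5f6c2d_pr.Sy.Spec

/- Functionals on the path space: measurability and uniform continuity in the sup distance. -/

set_option autoImplicit false
open MeasureTheory Filter Topology

namespace Pool.Agent.MP_5f6c2d_pr.Sy

open h58 I29 I29.Bri

theorem fn : FN := by
  refine fun F => ⟨fun hF E hE => (hF.comp (continuous_iff_continuousAt.2 fun d => ?_)).measurable,
    fun hF ε hε => ?_⟩
  · refine UniformOnFun.tendsto_iff_tendstoUniformlyOn.2 fun K hK u hu => ?_
    obtain ⟨R, hR⟩ := (IsCompact.isBounded hK).exists_norm_le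
    obtain ⟨N, hN⟩ := hE R
    have : ∀ᶠ d' : Sq in 𝓝 d, ∀ k ∈ Finset.Icc (-N) N, d' k = d k :=
      (Finset.eventually_all _).2 fun k _ =>
        (continuous_apply k).continuousAt ((isOpen_discrete {d k}).mem_nhds rfl)
    filter_upwards [this] with d' h t ht
    have e := hN d d' (fun k hk => (h k (Finset.mem_Icc.2 (abs_le.1 hk))).symm) t (hR t ht)
    exact mem_uniformity_of_eq hu e
  · obtain ⟨⟨K, V⟩, ⟨-, hV⟩, h⟩ := (UniformOnFun.hasBasis_uniformity ℝ (Fin 3 → ℝ)
      {K : Set ℝ | IsCompact K} ⟨∅, isCompact_empty⟩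
      (directedOn_of_sup_mem fun _ _ => IsCompact.union)).mem_iff.1
        (hF (Metric.dist_mem_uniformity hε))
    obtain ⟨δ, δ0, hδ⟩ := Metric.mem_uniformity_dist.1 hV
    refine ⟨δ / 2, half_pos δ0, fun f g hfg => le_of_lt (h (a := (_, _)) fun t _ => hδ ?_)⟩
    exact ((dist_pi_le_iff (half_pos δ0).le).2 (hfg t)).trans_lt (half_lt_self δ0)

end Pool.Agent.MP_5f6c2d_pr.Sy
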