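import Pool.Agent.MP_5f6c2d_pr.Sy.Zed

/- Assembly. -/

set_option autoImplicit false
open scoped Classical ENNReal
open MeasureTheory Filter Topology

namespace Pool.Agent.MP_5f6c2d_pr.Sy

open h58 I29 I29.Bri

noncomputable def Psi (F : PS → ℝ) (a : ℝ) (f : ℝ → Cl) : ℝ :=
  F (UniformOnFun.ofFun {K : Set ℝ | IsCompact K} fun t i => a⁻¹ * (1 / 4 * (f t i : ℝ)))

theorem Psi_close (hf : FN) {F : PS → ℝ} (hF : UniformContinuous F) {a : ℕ → ℝ}
    (ha : Tendsto a atTop atTop) (K : ℤ) (ε : ℝ) (e0 : 0 < ε) : ∀ᶠ n in atTop,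
      ∀ f g : ℝ → Cl, (∀ t i, |f t i - g t i| ≤ K) → |Psi F (a n) f - Psi F (a n) g| ≤ ε := by
  obtain ⟨δ, d0, h⟩ := (hf F).2 hF ε e0
  filter_upwards [ha.eventually_gt_atTop 0, ha.eventually_ge_atTop (K / δ)] with n a0 a1 f g k
  refine h _ _ fun t i => ?_
  have k1 : |(f t i : ℝ) - g t i| ≤ K := by exact_mod_cast k t i
  rw [div_le_iff₀ d0] at a1
  rw [← mul_sub, ← mul_sub, abs_mul, abs_mul, abs_of_pos (inv_pos.2 a0), inv_mul_le_iff₀ a0,
    abs_of_pos (by norm_num : (0 : ℝ) < 1 / 4)]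
  have := abs_nonneg ((f t i : ℝ) - g t i)
  linarith

theorem Psi_meas (hf : FN) {F : PS → ℝ} (hF : UniformContinuous F) (a : ℝ) (n : ℕ) (u η : ℝ)
    (hη : |η| = 1) (H : Cl → Cl → Cl) :
    Measurable fun d : Sq => Psi F a fun t => H (d ⌊n * (u + η * t)⌋) (d ⌊n * u⌋) := by
  refine (hf F).1 hF.continuous (fun d t i => a⁻¹ * (1 / 4 *
    (H (d ⌊n * (u + η * t)⌋) (d ⌊n * u⌋) i : ℝ))) fun R => ⟨⌈n * (|u| + |R|)⌉ + 1, ?_⟩
  have key : ∀ x : ℝ, |x| ≤ |u| + |R| → |⌊n * x⌋| ≤ ⌈n * (|u| + |R|)⌉ + 1 := fun x hx => by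
    have h1 : |n * x| ≤ n * (|u| + |R|) := by
      rw [abs_mul, Nat.abs_cast]; exact mul_le_mul_of_nonneg_left hx (Nat.cast_nonneg n)
    have h2 := Int.le_ceil (n * (|u| + |R|))
    have h3 := Int.floor_le (n * x)
    have h4 := Int.lt_floor_add_one (n * x)
    rw [abs_le] at h1
    have : |(⌊n * x⌋ : ℝ)| ≤ ⌈n * (|u| + |R|)⌉ + 1 := by rw [abs_le]; constructor <;> linarith
    exact_mod_cast this
  intro d d' h t ht
  rw [h _ (key u (by linarith [abs_nonneg R])), h _ (key _ ((abs_add_le _ _).trans (by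
    rw [abs_mul, hη]; linarith [le_abs_self R])))]

theorem io_bd {x y : Cl} {K : ℤ} (h : ∀ i, |x i - y i| ≤ K) (i : Fin 3) :
    |io x i - io y i| ≤ 3 * K := by
  have h0 := h 0; have h1 := h 1; have h2 := h 2
  rw [abs_le] at *
  fin_cases i <;> simp [io] <;> omega

theorem D_near (ω : Om) (s : St) {j k : ℤ} (h : |j - k| ≤ 2) (i : Fin 3) :
    |D ω s j i - D ω s k i| ≤ 4 := by
  have a := D_step ω s k i
  have b := D_step ω s (k + 1) i
  have c := D_step ω s j i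
  have d := D_step ω s (j + 1) i
  rw [abs_le] at *
  have : j = k ∨ j = k + 1 ∨ j = k + 1 + 1 ∨ k = j + 1 ∨ k = j + 1 + 1 := by omega
  rcases this with e | e | e | e | e <;> subst e <;> omega

variable (ν : Measure (Fin 3)) [IsProbabilityMeasure ν]

theorem Jt_close {Φ Φ' : Sq → ℝ} (h : Measurable Φ) (h' : Measurable Φ') {C ε : ℝ}
    (b : ∀ d, |Φ d| ≤ C) (b' : ∀ d, |Φ' d| ≤ C)
    (k : ∀ ω s, |Φ (D ω s) - Φ' (D ω s)| ≤ ε) : |Jt ν Φ - Jt ν Φ'| ≤ 24 * ε := by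
  have i : ∀ {Φ : Sq → ℝ}, Measurable Φ → (∀ d, |Φ d| ≤ C) → ∀ π : P4,
      IntegrableOn (fun ω => Φ (D ω (0, π))) {ω | Inf ω (0, π)} (mu ν) := fun h b π =>
    (Integrable.of_bound (h.comp (meas_D _)).aestronglyMeasurable C
      (ae_of_all _ fun ω => b _)).integrableOn
  have e0 : 0 ≤ ε := (abs_nonneg _).trans (k (fun _ => 0) sS)
  rw [Jt, Jt, ← Finset.sum_sub_distrib]
  refine (Finset.abs_sum_le_sum_abs _ _).trans ((Finset.sum_le_card_nsmul _ _ ε fun π _ => ?_).trans ?_)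
  · rw [Jp, Jp, ← integral_sub (i h b π) (i h' b' π)]
    refine (norm_setIntegral_le_of_norm_le_const (C := ε) (measure_lt_top _ _)
      fun ω _ => (Real.norm_eq_abs _).trans_le (k ω (0, π))).trans ?_
    exact mul_le_of_le_one_right e0 measureReal_le_one
  · rw [Finset.card_univ, Fintype.card_perm, Fintype.card_fin, nsmul_eq_mul]
    norm_num [Nat.factorial]

theorem int_cond (hb : BR) {Φ : Sq → ℝ} (h : Measurable Φ) {H : Om → ℝ}
    (e : ∀ ω, OnInf ω → H ω = Φ (D (fun u => ω (io u)) sS)) :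
    ∫ ω, H ω ∂(ProbabilityTheory.cond (mu ν) {ω | OnInf ω}) =
      (mu ν {ω | OnInf ω})⁻¹.toReal * Jp ν Φ sS.2 := by
  have inj : Function.Injective fun u => io ((tr sS.1).φ u) := io_inj.comp (tr sS.1).inj
  have mp : MeasurePreserving (fun (ω : Om) u => ω (io ((tr sS.1).φ u))) (mu ν) (mu ν) :=
    ⟨by fun_prop, Measure.map_infinitePi_infinitePi_of_inj (P := fun _ : Cl => ν) inj⟩
  have mI : MeasurableSet {ω | Inf ω (0, sS.2)} := measurableSet_setOfPred.2 (meas_Inf _)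
  have e1 : (fun (ω : Om) u => ω (io ((tr sS.1).φ u))) ⁻¹' {ω | Inf ω (0, sS.2)} =
      {ω | OnInf ω} := Set.ext fun ω => (Inf_env (fun u => ω (io u)) sS).trans (hb ω).1.symm
  have m2 := mp.restrict_preimage mI
  have mO : MeasurableSet {ω | OnInf ω} := e1 ▸ mp.measurable mI
  rw [e1] at m2
  rw [ProbabilityTheory.cond, integral_smul_measure, smul_eq_mul, Jp, ← m2.map_eq,
    integral_map m2.measurable.aemeasurable
      (f := fun ω => Φ (D ω (0, sS.2))) (h.comp (meas_D _)).aestronglyMeasurable]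
  congr 1
  exact setIntegral_congr_fun mO fun ω hω =>
    (e ω hω).trans (congrArg Φ (D_env (fun u => ω (io u)) sS).symm)

theorem moves (hm : MP) {η : ℝ} (hη : η = 1 ∨ η = -1) (n : ℕ) (u : ℝ) : ∃ G : Sq → Sq,
    Measurable G ∧ (∀ (Φ : Sq → ℝ) (C : ℝ), Measurable Φ → (∀ d, |Φ d| ≤ C) →
      Jt ν (fun d => Φ (G d)) = Jt ν Φ) ∧ ∀ ω s (t : ℝ) i,
      |G (D ω s) ⌊n * (0 + 1 * t)⌋ i - (D ω s ⌊n * (u + η * t)⌋ - D ω s ⌊n * u⌋) i| ≤ 8 := by
  rcases hη with rfl | rfl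
  · refine ⟨fun d k => d (⌊n * u⌋ + k) - d ⌊n * u⌋, by fun_prop,
      fun Φ C h b => Jt_shift ν hm h b _, fun ω s t i => ?_⟩
    have a := Int.le_floor_add (n * u) (n * t)
    have c := Int.le_floor_add_floor (n * u) (n * t)
    have := D_near ω s (j := ⌊n * u⌋ + ⌊n * t⌋) (k := ⌊n * u + n * t⌋) (by rw [abs_le]; omega) i
    simp only [zero_add, one_mul, mul_add, Pi.sub_apply, abs_le] at this ⊢
    omega
  · refine ⟨fun d k => (d (⌊n * u⌋ + (1 - k)) - d ⌊n * u⌋) - (d (⌊n * u⌋ + 1) - d ⌊n * u⌋),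
      by fun_prop, fun Φ C h b => ?_, fun ω s t i => ?_⟩
    · rw [← Jt_rev ν hm h b]
      exact Jt_shift ν hm (Φ := fun d => Φ fun k => d (1 - k) - d 1) (h.comp (by fun_prop))
        (fun d => b _) _
    · have a := Int.le_floor_add (n * u + -(n * t)) (n * t)
      have c := Int.le_floor_add_floor (n * u + -(n * t)) (n * t)
      rw [neg_add_cancel_right] at a c
      have := D_near ω s (j := ⌊n * u⌋ + (1 - ⌊n * t⌋)) (k := ⌊n * u + -(n * t)⌋)
        (by rw [abs_le]; omega) i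
      have d := D_step ω s ⌊n * u⌋ i
      simp only [zero_add, one_mul, mul_add, neg_mul, mul_neg, Pi.sub_apply, abs_le] at this d ⊢
      omega

theorem main (hz : Zed) (hm : MP) (hs : SG) (hf : FN) {a : ℕ → ℝ} (ha : Tendsto a atTop atTop)
    (σ : Equiv.Perm (Fin 3)) (ε : Fin 3 → ℤ) (hε : ∀ i, ε i = 1 ∨ ε i = -1) {η : ℝ}
    (hη : η = 1 ∨ η = -1) (u : ℕ → ℝ) {F : PS → ℝ} (hF : UniformContinuous F) {C : ℝ}
    (hC : ∀ f, |F f| ≤ C) :
    Tendsto (fun n : ℕ => Jp ν (fun d => Psi F (a n) fun t => io (cs sS + d ⌊n * (0 + 1 * t)⌋)) sS.2 -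
      Jp ν (fun d => Psi F (a n) fun t i =>
        ε i * io (d ⌊n * (u n + η * t)⌋ - d ⌊n * u n⌋) (σ i)) sS.2) atTop (𝓝 0) := by
  obtain ⟨φ, h1, h2⟩ := hs σ ε hε
  have eb : ∀ i x, |ε i * x| = |x| := fun i x => by rcases hε i with e | e <;> simp [e]
  have m1 : ∀ n : ℕ, Measurable fun d : Sq =>
      Psi F (a n) fun t => io (cs sS + d ⌊n * (0 + 1 * t)⌋) :=
    fun n => Psi_meas hf hF _ n 0 1 abs_one fun x _ => io (cs sS + x)
  have m2 : ∀ n : ℕ, Measurable fun d : Sq => Psi F (a n) fun t i =>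
      ε i * io (d ⌊n * (u n + η * t)⌋ - d ⌊n * u n⌋) (σ i) :=
    fun n => Psi_meas hf hF _ n (u n) η (by rcases hη with e | e <;> simp [e])
      fun x y i => ε i * io (x - y) (σ i)
  have z1 := hz ν _ C m1 (fun n d => hC _) (fun K e e0 =>
    (Psi_close hf hF ha (3 * K) e e0).mono fun n h d d' k => h _ _ fun t =>
      io_bd fun i => by simpa using k _ i) sS.2
  have z2 := hz ν _ C m2 (fun n d => hC _) (fun K e e0 =>
    (Psi_close hf hF ha (3 * (2 * K)) e e0).mono fun n h d d' k => h _ _ fun t i => by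
      rw [← mul_sub, eb]
      refine io_bd (fun i => ?_) _
      have a := k ⌊n * (u n + η * t)⌋ i
      have c := k ⌊n * u n⌋ i
      simp only [Pi.sub_apply, abs_le] at a c ⊢
      omega) sS.2
  have z3 : Tendsto (fun n : ℕ =>
      Jt ν (fun d => Psi F (a n) fun t => io (cs sS + d ⌊n * (0 + 1 * t)⌋)) -
      Jt ν (fun d => Psi F (a n) fun t i =>
        ε i * io (d ⌊n * (u n + η * t)⌋ - d ⌊n * u n⌋) (σ i))) atTop (𝓝 0) := by
    rw [Metric.tendsto_nhds]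
    intro e e0
    filter_upwards [Psi_close hf hF ha (24 + ∑ i, |io (cs sS) i|) (e / 25) (by positivity)] with n h
    obtain ⟨G, g1, g2, g3⟩ := moves ν hm hη n (u n)
    have m4 : Measurable fun d : Sq => Psi F (a n) fun t => io (cs sS + φ (d ⌊n * (0 + 1 * t)⌋)) :=
      Psi_meas hf hF _ n 0 1 abs_one fun x _ => io (cs sS + φ x)
    have m5 := m4.comp g1
    rw [Function.comp_def] at m5
    rw [← h2 ν _ (m1 n), ← g2 _ C m4 fun d => hC _, Real.dist_eq, sub_zero]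
    refine (Jt_close ν m5 (m2 n) (fun d => hC _) (fun d => hC _)
      (ε := e / 25) fun ω s => h _ _ fun t i => ?_).trans_lt (by linarith)
    have a := io_bd (g3 ω s t) (σ i)
    have c : |io (cs sS) i| ≤ ∑ i, |io (cs sS) i| :=
      Finset.single_le_sum (f := fun i => |io (cs sS) i|) (fun _ _ => abs_nonneg _)
        (Finset.mem_univ i)
    rw [← eb i, mul_sub] at a
    rw [io_add, Pi.add_apply, h1]
    rw [abs_le] at a c ⊢
    omega
  have := ((z1.sub z2).add z3).const_mul (1 / 24)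
  simp only [sub_zero, add_zero, mul_zero] at this
  exact this.congr fun n => by ring

end Pool.Agent.MP_5f6c2d_pr.Sy
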