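import Pool.Agent.MP_5f6c2d_pr.Sy.Spec

/- Mass transport: the successor and the reversal preserve the measure on environments. -/

set_option autoImplicit false
open scoped Classical ENNReal
open MeasureTheory Filter Topology

namespace Pool.Agent.MP_5f6c2d_pr.Sy

open h58 I29 I29.Bri

namespace Mp

variable (ν : Measure (Fin 3)) [IsProbabilityMeasure ν] {m : Om → St → St}

theorem meas_move (hm : ∀ s, Measurable fun ω => m ω s) :
    Measurable fun y : Al => env y.1 (m y.1 (0, y.2)) :=
  meas_Al fun π => meas_comp (f := env) meas_env (hm (0, π))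

theorem le_move (hi : ∀ ω, Function.Injective (m ω)) (hm : ∀ s, Measurable fun ω => m ω s)
    (hc : ∀ v ω s, m ω ((tr v).act s) = (tr v).act (m (fun u => ω ((tr v).φ u)) s))
    {B : Set Al} (hB : MeasurableSet B) :
    hat ν ((fun y : Al => env y.1 (m y.1 (0, y.2))) ⁻¹' B) ≤ hat ν B := by
  have h := mtp ν (fun ω s s' => m ω s = s' ∧ env ω s' ∈ B)
    (fun s s' => ((measurable_from_top (f := fun x : St => x = s')).comp (hm s)).and
      (hB.mem.comp (meas_env s')))
    (fun v ω s s' => by rw [hc, env_tr, (tr v).act_inj.eq_iff])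
    (fun ω s => env ω (m ω s) ∈ B) (fun ω s => env ω s ∈ B) 1 1
    (fun ω s hs => ⟨{m ω s}, by simp, fun s' hs' => by
      rw [Finset.mem_singleton.1 hs']
      exact ⟨rfl, hs⟩⟩)
    (fun ω s s' hs => hs.2)
    (fun ω s' A hA => Finset.card_le_one.2 fun s hs t ht =>
      hi ω ((hA s hs).1.trans (hA t ht).1.symm))
  have e : ∀ ω π, env ω (0, π) = (ω, π) := fun ω π => env_zero (ω, π)
  simp only [Nat.cast_one, one_mul, dens, e] at h
  rw [hat_apply ν (meas_move hm hB), hat_apply ν hB]
  exact h

theorem mp_move (hi : ∀ ω, Function.Injective (m ω)) (hm : ∀ s, Measurable fun ω => m ω s)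
    (hc : ∀ v ω s, m ω ((tr v).act s) = (tr v).act (m (fun u => ω ((tr v).φ u)) s)) :
    MeasurePreserving (fun y : Al => env y.1 (m y.1 (0, y.2))) (hat ν) (hat ν) := by
  refine ⟨meas_move hm, Measure.ext fun B hB => ?_⟩
  rw [Measure.map_apply (meas_move hm) hB]
  refine le_antisymm (le_move ν hi hm hc hB) ?_
  have h1 := le_move ν hi hm hc hB.compl
  have h2 := (measure_add_measure_compl (μ := hat ν) hB).trans
    (measure_add_measure_compl (μ := hat ν) (meas_move hm hB)).symm
  exact ENNReal.le_of_add_le_add_right (measure_ne_top _ _) (h2.le.trans (add_le_add le_rfl h1))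

end Mp

theorem mp : MP := fun ν _ =>
  ⟨Mp.mp_move ν (m := nxt) nxt_inj meas_nxt fun v ω s => (tr v).nxt_act ω s,
    Mp.mp_move ν (m := fun _ => h58.flip)
      (fun _ => Function.LeftInverse.injective (g := h58.flip) h58.flip_flip)
      (fun _ => measurable_const) fun v _ s => (tr v).flip_act s⟩

end Pool.Agent.MP_5f6c2d_pr.Sy
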