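import Pool.Agent.MP_5f6c2d_pr.Sy.Spec

/- The symmetries of the cube act on the displacement process. -/

set_option autoImplicit false
open scoped Classical ENNReal
open MeasureTheory

namespace Pool.Agent.MP_5f6c2d_pr.Sy

open h58 I29 I29.Bri

namespace SgL

/- A map of states that transports the dynamics. -/
structure Tp (φ : Cl →+ Cl) (a : St → St) (τ : P4 ≃ P4) : Prop where
  inj : Function.Injective φ
  ainj : Function.Injective a
  nx : ∀ ω s, nxt ω (a s) = a (nxt (fun v => ω (φ v)) s)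
  fl : ∀ s, h58.flip (a s) = a (h58.flip s)
  tr : ∀ ω s, tri ω (a s) ↔ tri (fun v => ω (φ v)) s
  cs : ∀ s, cs (a s) = φ (cs s)
  z : ∀ π, a (0, π) = (0, τ π)

variable {φ : Cl →+ Cl} {a : St → St} {τ : P4 ≃ P4}

theorem Tp.inf (h : Tp φ a τ) (ω : Om) (s : St) : Inf ω (a s) ↔ Inf (fun v => ω (φ v)) s := by
  have e : ∀ t, X ω (a s) t = a (X (fun v => ω (φ v)) s t) := fun t => by
    rw [← Y_nat, Y_map (h.nx ω) h.fl, Y_nat]
  simp only [Inf, h.tr, e, ne_eq, h.ainj.eq_iff]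

theorem Tp.d (h : Tp φ a τ) (ω : Om) (s : St) :
    D ω (a s) = fun k => φ (D (fun v => ω (φ v)) s k) := by
  funext k
  rw [D, D, Y_map (h.nx ω) h.fl, h.cs, h.cs, map_sub]

theorem meas_c (φ : Cl →+ Cl) {Φ : Sq → ℝ} (hΦ : Measurable Φ) :
    Measurable fun d : Sq => Φ fun k => φ (d k) :=
  hΦ.comp (measurable_pi_lambda _ fun k => (measurable_of_countable φ).comp (measurable_pi_apply k))

theorem Tp.jt (h : Tp φ a τ) (ν : Measure (Fin 3)) [IsProbabilityMeasure ν] (Φ : Sq → ℝ)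
    (hΦ : Measurable Φ) : Jt ν (fun d => Φ fun k => φ (d k)) = Jt ν Φ := by
  rw [Jt, Jt, ← Equiv.sum_comp τ (Jp ν Φ)]
  refine Finset.sum_congr rfl fun π _ => ?_
  have hm : (mu ν).map (fun (ω : Om) v => ω (φ v)) = mu ν :=
    Measure.map_infinitePi_infinitePi_of_inj (P := fun _ : Cl => ν) h.inj
  rw [Jp, Jp, ← h.z]
  conv_lhs => rw [← hm]
  rw [setIntegral_map (f := fun ω => Φ fun k => φ (D ω (0, π) k))
    (measurableSet_setOfPred.2 (meas_Inf _))
    ((meas_c φ hΦ).comp (meas_D _)).aestronglyMeasurable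
    (Measurable.aemeasurable (by fun_prop))]
  simp only [h.inf, h.d]
  rfl

/- Permutations of the four directions. -/
def ph (ρ : P4) : Cl →+ Cl :=
  AddMonoidHom.mk' (fun v => v 0 • w (ρ 0) + v 1 • w (ρ 1) + v 2 • w (ρ 2)) fun u v => by
    simp only [Pi.add_apply, add_smul]; abel

theorem ph_apply (ρ : P4) (v : Cl) : ph ρ v = v 0 • w (ρ 0) + v 1 • w (ρ 1) + v 2 • w (ρ 2) := rfl

theorem be_ph (ρ : P4) (v : Cl) (i j : Fin 4) : be (ρ i) (ρ j) (ph ρ v) = be i j v := by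
  simp only [ph_apply, be_add, be_smul, be_w, EmbeddingLike.apply_eq_iff_eq]
  fin_cases i <;> fin_cases j <;> simp [be, b] <;> ring

def sy (ρ : P4) : Sym where
  φ := ph ρ
  σ := ρ
  inj u v e := be_ext fun i j => by rw [← be_ph ρ u, e, be_ph]
  hw v k := be_ext fun i j => by
    obtain ⟨i, rfl⟩ := ρ.surjective i
    obtain ⟨j, rfl⟩ := ρ.surjective j
    simp only [be_ph, be_add, be_w, EmbeddingLike.apply_eq_iff_eq]
  hb i j v v' := by rw [be_ph, be_ph]

theorem tp_sy (ρ : P4) : Tp (ph ρ) (sy ρ).act (Equiv.mulLeft ρ) where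
  inj := (sy ρ).inj
  ainj := (sy ρ).act_inj
  nx := (sy ρ).nxt_act
  fl := (sy ρ).flip_act
  tr := (sy ρ).tri_act
  cs s := by simp only [cs, Sym.cell_act, map_add]; rfl
  z π := Prod.ext (map_zero (ph ρ)) rfl

/- Negation. -/
def ng : Cl →+ Cl := -AddMonoidHom.id Cl

def N (s : St) : St := (-s.1, s.2 * Fin.revPerm)

theorem N_fst (s : St) : (N s).1 = -s.1 := rfl
theorem N_0 (s : St) : (N s).2 0 = s.2 3 := rfl
theorem N_1 (s : St) : (N s).2 1 = s.2 2 := rfl
theorem N_2 (s : St) : (N s).2 2 = s.2 1 := rfl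
theorem N_3 (s : St) : (N s).2 3 = s.2 0 := rfl

theorem cN0 (s : St) : cell (N s) 0 = -cell s 0 := rfl
theorem cN1 (s : St) : cell (N s) 1 = -cell s 3 := by
  rw [cell_1, cell_3, N_fst, N_0]; abel
theorem cN2 (s : St) : cell (N s) 2 = -cell s 2 := by
  rw [cell_2, cell_2, N_fst, N_0, N_1]
  linear_combination (exp := 1) wsum s.2
theorem cN3 (s : St) : cell (N s) 3 = -cell s 1 := by
  rw [cell_1, cell_3, N_fst, N_3]; abel

theorem flip_N (s : St) : h58.flip (N s) = N (h58.flip s) := by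
  apply St.ext4
  · rw [flip_fst, N_fst, N_fst, flip_fst, N_0, N_3]; abel
  all_goals simp only [N_0, N_1, N_2, N_3, flip_0, flip_1, flip_2, flip_3]

theorem rot_N (s : St) : rot (N s) = N (rot (rot (rot s))) := by
  apply St.ext4
  · rw [← cell_0, ← cell_0, cell_rot0, cN1, cN0, cell_rot0, cell_rot1, cell_rot2]
  all_goals simp only [N_0, N_1, N_2, N_3, rot_0, rot_1, rot_2, rot_3]

theorem tri_N (ω : Om) (s : St) : tri ω (N s) ↔ tri (fun v => ω (-v)) s := by
  simp only [tri, cN1, cN2, cN3]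
  exact ⟨fun h => ⟨h.2.2.symm, h.2.1.symm, h.1.symm⟩, fun h => ⟨h.2.2.symm, h.2.1.symm, h.1.symm⟩⟩

theorem turn_N (ω : Om) (s : St) : turn ω (N s) = N (turn (fun v => ω (-v)) s) := by
  by_cases h : tri (fun v => ω (-v)) s
  · have h' := (tri_N ω s).2 h
    rcases turn_cases h with ⟨e, t⟩ | ⟨e, t⟩ | ⟨e, t⟩ <;> rw [t]
    · rw [turn_eq3 h' (by rw [cN3, cN0]; exact e)]
      simp only [rot_N, rot4]
    · rw [turn_eq2 h' (by rw [cN2, cN0]; exact e)]
      simp only [rot_N, rot4]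
    · rw [turn_eq1 h' (by rw [cN1, cN0]; exact e), rot_N]
  · unfold turn
    rw [if_neg h, if_neg fun c => h ((tri_N ω s).1 c)]

theorem tp_N : Tp ng N (Equiv.mulRight Fin.revPerm) where
  inj := neg_injective
  ainj s t e := Prod.ext (neg_injective (congrArg Prod.fst e))
    (mul_right_cancel (congrArg Prod.snd e))
  nx ω s := by unfold nxt; rw [flip_N, turn_N]; rfl
  fl := flip_N
  tr := tri_N
  cs s := by
    simp only [cs, cN0, cN1, cN2, cN3, ng, AddMonoidHom.neg_apply, AddMonoidHom.id_apply]; abel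
  z π := Prod.ext neg_zero rfl

theorem sign_mul (ρ π : P4) : Equiv.Perm.sign (ρ * π) = 1 ↔
    (Equiv.Perm.sign ρ = 1 ↔ Equiv.Perm.sign π = 1) := by
  rw [map_mul]
  rcases Int.units_eq_one_or (Equiv.Perm.sign ρ) with e | e <;>
    rcases Int.units_eq_one_or (Equiv.Perm.sign π) with e' | e' <;> rw [e, e'] <;> decide

theorem sign_rev : Equiv.Perm.sign (Fin.revPerm : P4) = 1 := by decide

noncomputable def m (ν : Measure (Fin 3)) [IsProbabilityMeasure ν] (π : P4) (c : Prop) : ℝ≥0∞ :=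
  mu ν {ω | Inf ω (0, π) ∧ (chi ω (0, π) ↔ c)}

variable (ν : Measure (Fin 3)) [IsProbabilityMeasure ν]

theorem m_pre (h : Function.Injective φ) (π : P4) (c : Prop) :
    mu ν {ω | Inf (fun v => ω (φ v)) (0, π) ∧ (chi (fun v => ω (φ v)) (0, π) ↔ c)} = m ν π c :=
  mu_pre ν h (E := fun ω => Inf ω (0, π) ∧ (chi ω (0, π) ↔ c))
    (measurableSet_setOfPred.2 ((meas_Inf _).and ((meas_chi _).iff measurable_const)))

theorem m_sy (ρ π : P4) (c : Prop) : m ν (ρ * π) c = m ν π (Equiv.Perm.sign ρ = 1 ↔ c) := by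
  rw [← m_pre ν (tp_sy ρ).inj π, m, show ((0, ρ * π) : St) = (sy ρ).act (0, π) from
    ((tp_sy ρ).z π).symm]
  congr 1
  ext ω
  have e : ((sy ρ).act (0, π)).2 = ρ * π := rfl
  simp only [Set.mem_ofPred_eq, (tp_sy ρ).inf, chi, Sym.cell_act, e, sign_mul]
  refine and_congr_right fun _ => ?_
  change ((_ ↔ ω (ph ρ _) = ω (ph ρ _) + 1) ↔ c) ↔ _
  tauto

theorem m_N (π : P4) (c : Prop) : m ν (π * Fin.revPerm) c = m ν π (¬c) := by
  rw [← m_pre ν tp_N.inj π, m, show ((0, π * Fin.revPerm) : St) = N (0, π) from (tp_N.z π).symm]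
  congr 1
  ext ω
  have e : (N (0, π)).2 = π * Fin.revPerm := rfl
  simp only [Set.mem_ofPred_eq, tp_N.inf, chi, cN1, cN2, e, sign_mul, sign_rev]
  refine and_congr_right fun h => ?_
  have o := (ori3 _ _ _ h.1.1 h.1.2.1 h.1.2.2).2.1
  change (ω (-_) = ω (-_) + 1 ↔ ¬ ω (-_) = ω (-_) + 1) at o
  change _ ↔ ((_ ↔ ω (-_) = ω (-_) + 1) ↔ _)
  tauto

theorem m_not (π : P4) (c : Prop) : m ν π (¬c) = m ν π c := by
  rw [← m_N, show π * Fin.revPerm = π * Fin.revPerm * π⁻¹ * π by group, m_sy,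
    Equiv.Perm.sign_mul, Equiv.Perm.sign_mul, sign_rev, Equiv.Perm.sign_inv, mul_one,
    Int.units_mul_self]
  simp only [true_iff]

theorem tab : ∀ (σ : Equiv.Perm (Fin 3)) (ε : Fin 3 → Bool), ∃ (ρ : P4) (e : Bool),
    ∀ (i : Fin 3) (k : Fin 4),
      cond e 1 (-1) * io (w (ρ k)) i = cond (ε i) 1 (-1) * io (w k) (σ i) := by
  decide +kernel

theorem io_ph (ρ : P4) (v : Cl) (i : Fin 3) : io (ph ρ v) i =
    v 0 * io (w (ρ 0)) i + v 1 * io (w (ρ 1)) i + v 2 * io (w (ρ 2)) i := by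
  rw [ph_apply]
  fin_cases i <;> simp [io] <;> ring

theorem io_v (v : Cl) (i : Fin 3) :
    io v i = v 0 * io (w 0) i + v 1 * io (w 1) i + v 2 * io (w 2) i := by
  fin_cases i <;> simp [io, w] <;> ring

theorem io_neg (v : Cl) (i : Fin 3) : io (-v) i = -io v i := by
  fin_cases i <;> simp [io] <;> ring

end SgL

open SgL

theorem sg : SG := by
  intro σ ε hε
  obtain ⟨ρ, e, h⟩ := tab σ fun i => decide (ε i = 1)
  have h1 : ∀ i, cond (decide (ε i = 1)) 1 (-1) = ε i := fun i => by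
    rcases hε i with c | c <;> rw [c] <;> rfl
  simp only [h1] at h
  cases e
  · refine ⟨ng.comp (ph ρ), fun v i => ?_, fun ν _ Φ hΦ => ?_⟩
    · change io (-ph ρ v) i = _
      rw [io_neg, io_ph, io_v v]
      simp only [cond_false] at h
      linear_combination v 0 * h i 0 + v 1 * h i 1 + v 2 * h i 2
    · exact ((tp_sy ρ).jt ν _ (meas_c ng hΦ)).trans (tp_N.jt ν Φ hΦ)
  · refine ⟨ph ρ, fun v i => ?_, (tp_sy ρ).jt⟩
    rw [io_ph, io_v v]
    simp only [cond_true] at h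
    linear_combination v 0 * h i 0 + v 1 * h i 1 + v 2 * h i 2

theorem em : EM := by
  intro ν _ c π π'
  change m ν π c = m ν π' c
  rw [show π = π * π'⁻¹ * π' by group, m_sy]
  by_cases s : Equiv.Perm.sign (π * π'⁻¹) = 1
  · simp only [s, true_iff]
  · simp only [s, false_iff, m_not]

end Pool.Agent.MP_5f6c2d_pr.Sy
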