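import Pool.Agent.MP_5f6c2d_pr.I29.Bri

/- Asymptotic symmetry of the infinite tricolor path: definitions and statements of the parts. -/

set_option autoImplicit false
open scoped Classical ENNReal
open MeasureTheory Filter Topology

namespace Pool.Agent.MP_5f6c2d_pr.Sy

open h58 I29 I29.Bri

/- The successor map as a permutation, and the two-sided orbit. -/
noncomputable def nx (ω : Om) : Equiv.Perm St where
  toFun := nxt ω
  invFun s := h58.flip (nxt ω (h58.flip s))
  left_inv s := by simp only [nxt_flip_nxt, h58.flip_flip]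
  right_inv s := by simp only [nxt_flip_nxt, h58.flip_flip]

noncomputable def Y (ω : Om) (s : St) (k : ℤ) : St := (nx ω ^ k) s

@[simp] theorem Y_zero (ω : Om) (s : St) : Y ω s 0 = s := by simp [Y]

theorem Y_add (ω : Om) (s : St) (j k : ℤ) : Y ω (Y ω s j) k = Y ω s (j + k) := by
  simp only [Y, add_comm j k, zpow_add, Equiv.Perm.mul_apply]

theorem Y_one (ω : Om) (s : St) : Y ω s 1 = nxt ω s := by simp only [Y, zpow_one]; rfl

theorem Y_neg_one (ω : Om) (s : St) : Y ω s (-1) = h58.flip (nxt ω (h58.flip s)) := by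
  simp only [Y, zpow_neg, zpow_one]; rfl

theorem Y_succ (ω : Om) (s : St) (k : ℤ) : Y ω s (k + 1) = nxt ω (Y ω s k) := by
  rw [← Y_add, Y_one]

theorem Y_pred (ω : Om) (s : St) (k : ℤ) :
    Y ω s (k - 1) = h58.flip (nxt ω (h58.flip (Y ω s k))) := by
  rw [sub_eq_add_neg, ← Y_add, Y_neg_one]

theorem Y_nat (ω : Om) (s : St) (t : ℕ) : Y ω s t = X ω s t := by
  induction t with
  | zero => simp
  | succ t ih => rw [Nat.cast_succ, Y_succ, ih, X_succ]

theorem Y_flip (ω : Om) (s : St) (k : ℤ) : Y ω (h58.flip s) k = h58.flip (Y ω s (-k)) := by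
  induction k using Int.induction_on with
  | zero => simp
  | succ k ih => rw [Y_succ, ih, neg_add, ← sub_eq_add_neg, Y_pred, h58.flip_flip]
  | pred k ih =>
    rw [Y_pred, ih, h58.flip_flip, ← Y_succ]; congr 2; ring

/- Transport of orbits along any map that commutes with the dynamics. -/
theorem Y_map {ω ω' : Om} {a : St → St} (h1 : ∀ s, nxt ω (a s) = a (nxt ω' s))
    (h2 : ∀ s, h58.flip (a s) = a (h58.flip s)) (s : St) (k : ℤ) : Y ω (a s) k = a (Y ω' s k) := by
  induction k using Int.induction_on with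
  | zero => simp
  | succ k ih => rw [Y_succ, ih, h1, Y_succ]
  | pred k ih => rw [Y_pred, ih, h2, h1, h2, Y_pred]

theorem meas_Y (s : St) (k : ℤ) : Measurable fun ω : Om => Y ω s k := by
  obtain ⟨t, rfl | rfl⟩ := k.eq_nat_or_neg
  · simp only [Y_nat]; exact meas_X s t
  · have : ∀ ω, Y ω s (-t) = h58.flip (X ω (h58.flip s) t) := fun ω => by
      rw [← Y_nat, Y_flip, h58.flip_flip]
    simp only [this]
    exact (measurable_from_top (f := h58.flip)).comp (meas_X _ t)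

/- Sum of the four cells of the alcove, and the displacement process. -/
def cs (s : St) : Cl := cell s 0 + cell s 1 + cell s 2 + cell s 3

theorem cs_rot (s : St) : cs (rot s) = cs s := by
  simp only [cs, cell_rot0, cell_rot1, cell_rot2, cell_rot3]; abel

theorem cs_flip (s : St) : cs (h58.flip s) = cs s + (w (s.2 0) - w (s.2 3)) := by
  simp only [cs, cell_flip1, cell_flip2, cell_flip3, cell_0, flip_fst]; abel

theorem cs_nxt (ω : Om) (s : St) : cs (nxt ω s) = cs (h58.flip s) := by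
  unfold nxt turn; split_ifs <;> simp only [cs_rot]

theorem cs_tr (v : Cl) (s : St) : cs ((tr v).act s) = cs s + (v + v + v + v) := by
  simp only [cs, Sym.cell_act, tr]; abel

abbrev Sq := ℤ → Cl

noncomputable def D (ω : Om) (s : St) : Sq := fun k => cs (Y ω s k) - cs s

theorem D_zero (ω : Om) (s : St) : D ω s 0 = 0 := by simp [D]

theorem D_tr (v : Cl) (ω : Om) (s : St) :
    D ω ((tr v).act s) = D (fun u => ω ((tr v).φ u)) s := by
  funext k
  rw [D, D, Y_map ((tr v).nxt_act ω) (tr v).flip_act, cs_tr, cs_tr]; abel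

theorem D_nxt (ω : Om) (s : St) : D ω (nxt ω s) = fun k => D ω s (1 + k) - D ω s 1 := by
  funext k
  simp only [D, ← Y_one, Y_add]; abel

theorem D_flip (ω : Om) (s : St) : D ω (h58.flip s) = fun k => D ω s (1 - k) - D ω s 1 := by
  funext k
  simp only [D]
  rw [Y_flip, ← cs_nxt ω, ← Y_succ, Y_one, cs_nxt, show -k + 1 = 1 - k by ring]; abel

theorem w_abs : ∀ (a c : Fin 4) (i : Fin 3), |(w a - w c) i| ≤ 2 := by decide

theorem D_step (ω : Om) (s : St) (k : ℤ) (i : Fin 3) : |D ω s (k + 1) i - D ω s k i| ≤ 2 := by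
  have := w_abs ((Y ω s k).2 0) ((Y ω s k).2 3) i
  simp only [D, Y_succ, cs_nxt, cs_flip, Pi.sub_apply, Pi.add_apply] at this ⊢
  rwa [show ∀ x y z : ℤ, x + y - z - (x - z) = y from fun x y z => by ring]

theorem meas_D (s : St) : Measurable fun ω : Om => D ω s :=
  measurable_pi_lambda _ fun k => (measurable_from_top (f := fun x => cs x - cs s)).comp (meas_Y s k)

theorem meas_chi (s : St) : Measurable fun ω : Om => chi ω s := by
  unfold chi; fun_prop

theorem Inf_nxt (ω : Om) (s : St) : Inf ω (nxt ω s) ↔ Inf ω s := by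
  refine ⟨fun h => ?_, fun h => h.X 1⟩
  have := (h.flip.X 1).flip
  rwa [X_succ, X_zero, nxt_flip_nxt, h58.flip_flip] at this

theorem Inf_flip (ω : Om) (s : St) : Inf ω (h58.flip s) ↔ Inf ω s :=
  ⟨fun h => by simpa using h.flip, Inf.flip⟩

/- The environment seen from a state. -/
instance : MeasurableSpace P4 := ⊤
instance : DiscreteMeasurableSpace P4 := ⟨fun _ => trivial⟩

abbrev Al := Om × P4

def env (ω : Om) (s : St) : Al := (fun u => ω ((tr s.1).φ u), s.2)
noncomputable def TT (y : Al) : Al := env y.1 (nxt y.1 (0, y.2))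
def RR (y : Al) : Al := env y.1 (h58.flip (0, y.2))

theorem st_eq (s : St) : s = (tr s.1).act (0, s.2) := by rw [tr_act, zero_add]

theorem env_zero (y : Al) : env y.1 (0, y.2) = y := by simp [env, tr]

theorem env_tr (v : Cl) (ω : Om) (s : St) :
    env ω ((tr v).act s) = env (fun u => ω ((tr v).φ u)) s := by
  simp [env, tr, Sym.act, add_assoc]

theorem TT_env (ω : Om) (s : St) : TT (env ω s) = env ω (nxt ω s) := by
  conv_rhs => rw [st_eq s, Sym.nxt_act, env_tr]
  rfl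

theorem D_env (ω : Om) (s : St) : D (env ω s).1 (0, (env ω s).2) = D ω s := by
  conv_rhs => rw [st_eq s, D_tr]
  rfl

theorem Inf_env (ω : Om) (s : St) : Inf (env ω s).1 (0, (env ω s).2) ↔ Inf ω s := by
  conv_rhs => rw [st_eq s, Inf_act]
  rfl

theorem chi_env (ω : Om) (s : St) : chi (env ω s).1 (0, (env ω s).2) ↔ chi ω s := by
  conv_rhs => rw [st_eq s]
  simp only [chi, Sym.cell_act]; rfl

theorem meas_env (s : St) : Measurable fun ω : Om => env ω s := by
  unfold env; fun_prop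

theorem meas_Al {β : Type} [MeasurableSpace β] {f : Al → β} (h : ∀ π, Measurable fun ω => f (ω, π)) :
    Measurable f := measurable_from_prod_countable_left h

variable (ν : Measure (Fin 3)) [IsProbabilityMeasure ν]

noncomputable def hat : Measure Al := ∑ π : P4, (mu ν).map fun ω => (ω, π)

theorem hat_apply {S : Set Al} (hS : MeasurableSet S) :
    hat ν S = ∑ π : P4, mu ν {ω | (ω, π) ∈ S} := by
  rw [hat, Measure.finset_sum_apply]
  exact Finset.sum_congr rfl fun π _ => Measure.map_apply (by fun_prop) hS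

instance : IsFiniteMeasure (hat ν) :=
  ⟨by rw [hat_apply ν MeasurableSet.univ]; exact ENNReal.sum_lt_top.2 fun _ _ => measure_lt_top _ _⟩

theorem int_hat {S : Set Al} (hS : MeasurableSet S) {H : Al → ℝ} (hH : Measurable H) {C : ℝ}
    (hC : ∀ y, |H y| ≤ C) :
    ∫ y in S, H y ∂(hat ν) = ∑ π : P4, ∫ ω in {ω | (ω, π) ∈ S}, H (ω, π) ∂(mu ν) := by
  rw [← integral_indicator hS, hat, integral_finset_sum_measure fun π _ =>
    (Integrable.of_bound hH.aestronglyMeasurable C (ae_of_all _ hC)).indicator hS]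
  refine Finset.sum_congr rfl fun π _ => ?_
  rw [integral_map (by fun_prop) (hH.indicator hS).aestronglyMeasurable,
    ← integral_indicator (s := {ω | (ω, π) ∈ S}) ((by fun_prop : Measurable fun ω : Om => (ω, π)) hS)]
  rfl

/- Expectation of a functional of the displacement process on the event of an infinite path. -/
noncomputable def Jp (Φ : Sq → ℝ) (π : P4) : ℝ :=
  ∫ ω in {ω | Inf ω (0, π)}, Φ (D ω (0, π)) ∂(mu ν)
noncomputable def Jt (Φ : Sq → ℝ) : ℝ := ∑ π : P4, Jp ν Φ π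

/- An abstract mixing lemma for ergodic maps. -/
def ZW : Prop := ∀ (α : Type) [MeasurableSpace α] (μ : Measure α) [IsFiniteMeasure μ] (T : α → α),
  MeasurePreserving T μ μ → (∀ s, MeasurableSet s → T ⁻¹' s = s → μ s = 0 ∨ μ sᶜ = 0) →
  ∀ B : Set α, MeasurableSet B → ∀ (G : ℕ → α → ℝ) (C : ℝ), (∀ n, Measurable (G n)) →
    (∀ n x, |G n x| ≤ C) → (∀ ε : ℝ, 0 < ε → ∀ᶠ n in atTop, ∀ x, |G n (T x) - G n x| ≤ ε) →
    Tendsto (fun n => μ.real Set.univ * ∫ x in B, G n x ∂μ - μ.real B * ∫ x, G n x ∂μ) atTop (𝓝 0)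

/- Mass transport: successor and reversal preserve the measure. -/
def MP : Prop := ∀ (ν : Measure (Fin 3)) [IsProbabilityMeasure ν],
  MeasurePreserving TT (hat ν) (hat ν) ∧ MeasurePreserving RR (hat ν) (hat ν)

/- The 48 symmetries of the cube. -/
def SG : Prop := ∀ (σ : Equiv.Perm (Fin 3)) (ε : Fin 3 → ℤ), (∀ i, ε i = 1 ∨ ε i = -1) →
  ∃ φ : Cl →+ Cl, (∀ v i, io (φ v) i = ε i * io v (σ i)) ∧
    ∀ (ν : Measure (Fin 3)) [IsProbabilityMeasure ν] (Φ : Sq → ℝ), Measurable Φ →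
      Jt ν (fun d => Φ fun k => φ (d k)) = Jt ν Φ

def EM : Prop := ∀ (ν : Measure (Fin 3)) [IsProbabilityMeasure ν] (c : Prop) (π π' : P4),
  mu ν {ω | Inf ω (0, π) ∧ (chi ω (0, π) ↔ c)} = mu ν {ω | Inf ω (0, π') ∧ (chi ω (0, π') ↔ c)}

/- Functionals that do not feel bounded changes. -/
def Soft (Φ : ℕ → Sq → ℝ) : Prop := ∀ (K : ℤ) (ε : ℝ), 0 < ε → ∀ᶠ n in atTop,
  ∀ d d' : Sq, (∀ k i, |d k i - d' k i| ≤ K) → |Φ n d - Φ n d'| ≤ ε

def Zed : Prop := ∀ (ν : Measure (Fin 3)) [IsProbabilityMeasure ν] (Φ : ℕ → Sq → ℝ) (C : ℝ),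
  (∀ n, Measurable (Φ n)) → (∀ n d, |Φ n d| ≤ C) → Soft Φ → ∀ π,
    Tendsto (fun n => 24 * Jp ν (Φ n) π - Jt ν (Φ n)) atTop (𝓝 0)

/- The objects of the frozen statement. -/
def OnInf (ω : (Fin 3 → ℤ) → Fin 3) : Prop :=
  ∃ x : ℤ → Finset (Fin 3 → ℤ), Function.Injective x ∧ (∀ k, Step ω (x k) (x (k + 1))) ∧
    x 0 ∩ x 1 = {![0, 0, 0], ![2, 0, 0], ![1, 1, 1]}

def sS : St := h58.flip (-w 2, Equiv.swap 0 1 * Equiv.swap 0 2)

def BR : Prop := ∀ ω : Om, (OnInf ω ↔ Inf (fun u => ω (io u)) sS) ∧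
  ∀ x : ℤ → Finset Cl, x 0 = {![0, 0, 0], ![2, 0, 0], ![1, 1, 1], ![1, 1, -1]} →
    x 1 = {![0, 0, 0], ![2, 0, 0], ![1, 1, 1], ![1, -1, 1]} → Function.Injective x →
    (∀ k, Step ω (x k) (x (k + 1))) →
    ∀ k, ∑ v ∈ x k, v = io (cs sS + D (fun u => ω (io u)) sS k)

abbrev PS := UniformOnFun ℝ (Fin 3 → ℝ) {K : Set ℝ | IsCompact K}

def FN : Prop := ∀ F : PS → ℝ,
  (Continuous F → ∀ E : Sq → ℝ → Fin 3 → ℝ,
    (∀ R : ℝ, ∃ N : ℤ, ∀ d d' : Sq, (∀ k, |k| ≤ N → d k = d' k) → ∀ t, |t| ≤ R → E d t = E d' t) →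
    Measurable fun d => F (UniformOnFun.ofFun {K : Set ℝ | IsCompact K} (E d))) ∧
  (UniformContinuous F → ∀ ε : ℝ, 0 < ε → ∃ δ : ℝ, 0 < δ ∧ ∀ f g : ℝ → Fin 3 → ℝ,
    (∀ t i, |f t i - g t i| ≤ δ) → |F (UniformOnFun.ofFun {K : Set ℝ | IsCompact K} f) -
      F (UniformOnFun.ofFun {K : Set ℝ | IsCompact K} g)| ≤ ε)

end Pool.Agent.MP_5f6c2d_pr.Sy
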