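import Pool.Agent.MP_5f6c2d_pr.Sy.Spec

/- The law of a soft functional does not depend on the starting edge, asymptotically. -/

set_option autoImplicit false
open scoped Classical ENNReal
open MeasureTheory Filter Topology

namespace Pool.Agent.MP_5f6c2d_pr.Sy

open h58 I29 I29.Bri

def Sc (c : Prop) : Set Al := {y | Inf y.1 (0, y.2) ∧ (chi y.1 (0, y.2) ↔ c)}

theorem meas_Sc' (c : Prop) (s : St) : MeasurableSet {ω | Inf ω s ∧ (chi ω s ↔ c)} :=
  measurableSet_setOfPred.2 ((meas_Inf s).and ((meas_chi s).iff measurable_const))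

theorem meas_Sc (c : Prop) : MeasurableSet (Sc c) :=
  measurableSet_setOfPred.2 (meas_Al fun π => measurableSet_setOfPred.1 (meas_Sc' c (0, π)))

theorem TT_Sc (c : Prop) : TT ⁻¹' Sc c = Sc c := by
  ext y
  simp only [Sc, TT, Set.mem_preimage, Set.mem_ofPred_eq, Inf_env, chi_env, Inf_nxt]
  exact and_congr_right fun h => by rw [chi_nxt h.1]

theorem chi_tr (v : Cl) (ω : Om) (s : St) :
    chi ω ((tr v).act s) ↔ chi (fun u => ω ((tr v).φ u)) s := by
  simp only [chi, Sym.cell_act]; rfl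

variable (ν : Measure (Fin 3)) [IsProbabilityMeasure ν]

theorem erg (hc : Core) {q : ℝ≥0∞} (q0 : q ≠ 0) (hq : ∀ c, q ≤ ν {c}) (c : Prop) (B : Set Al)
    (hB : MeasurableSet B) (hT : TT ⁻¹' B = B) :
    (hat ν).restrict (Sc c) B = 0 ∨ (hat ν).restrict (Sc c) Bᶜ = 0 := by
  have inv : ∀ ω s, env ω (nxt ω s) ∈ B ↔ env ω s ∈ B := fun ω s => by
    rw [← TT_env, ← Set.mem_preimage, hT]
  have mB : ∀ s, Measurable fun ω => env ω s ∈ B := fun s =>
    (measurableSet_setOfPred.1 hB).comp (meas_env s)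
  have hO : Obs fun ω s => ((chi ω s ↔ c) ∧ env ω s ∈ B) ∨
      (¬ (chi ω s ↔ c) ∧ env ω (h58.flip s) ∈ B) := by
    refine ⟨fun s => ?_, fun v ω s => ?_, fun ω s _ => ?_, fun ω s ht => ?_⟩
    · exact (((meas_chi s).iff measurable_const).and (mB _)).or
        (((meas_chi s).iff measurable_const).not.and (mB _))
    · simp only [chi_tr, Sym.flip_act, env_tr]
    · rw [chi_flip, h58.flip_flip]; tauto
    · rw [chi_nxt ht, inv, ← inv ω (h58.flip (nxt ω s)), nxt_flip_nxt]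
  have key : ∀ B' : Set Al, MeasurableSet B' →
      (∀ᵐ ω ∂(mu ν), ∀ π, (ω, π) ∈ Sc c → (ω, π) ∉ B') → (hat ν).restrict (Sc c) B' = 0 := by
    intro B' m h
    rw [Measure.restrict_apply m, hat_apply ν (m.inter (meas_Sc c))]
    refine Finset.sum_eq_zero fun π _ => measure_mono_null ?_ (ae_iff.1 h)
    exact fun ω hω k => k π hω.2 hω.1
  rcases hc ν q q0 hq _ hO with h | h
  · refine Or.inr (key _ hB.compl (h.mono fun ω h π hs n => ?_))
    rcases h (0, π) hs.1 with a | a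
    · exact n (env_zero (ω, π) ▸ a.2)
    · exact a.1 hs.2
  · refine Or.inl (key _ hB (h.mono fun ω h π hs n => ?_))
    exact h (0, π) hs.1 (Or.inl ⟨hs.2, (env_zero (ω, π)).symm ▸ n⟩)

noncomputable def Jc (c : Prop) (Φ : Sq → ℝ) (π : P4) : ℝ :=
  ∫ ω in {ω | Inf ω (0, π) ∧ (chi ω (0, π) ↔ c)}, Φ (D ω (0, π)) ∂(mu ν)

theorem Jp_eq {Φ : Sq → ℝ} (hΦ : Measurable Φ) {C : ℝ} (hC : ∀ d, |Φ d| ≤ C) (π : P4) :
    Jp ν Φ π = Jc ν True Φ π + Jc ν False Φ π := by
  have i : Integrable (fun ω => Φ (D ω (0, π))) (mu ν) :=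
    Integrable.of_bound (hΦ.comp (meas_D _)).aestronglyMeasurable C (ae_of_all _ fun ω => hC _)
  rw [Jc, Jc, ← setIntegral_union (Set.disjoint_left.2 fun ω a c => c.2.1 (a.2.2 trivial))
    (meas_Sc' _ _) i.integrableOn i.integrableOn, Jp]
  congr 2
  ext ω
  simp only [Set.mem_ofPred_eq, Set.mem_union]; tauto

theorem zc (hz : ZW) (hm : MP) (he : EM) (hc : Core) {q : ℝ≥0∞} (q0 : q ≠ 0)
    (hq : ∀ c, q ≤ ν {c}) (Φ : ℕ → Sq → ℝ) (C : ℝ) (h1 : ∀ n, Measurable (Φ n))
    (h2 : ∀ n d, |Φ n d| ≤ C) (h3 : Soft Φ) (c : Prop) (π : P4) :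
    Tendsto (fun n => 24 * Jc ν c (Φ n) π - ∑ π', Jc ν c (Φ n) π') atTop (𝓝 0) := by
  by_cases m0 : mu ν {ω | Inf ω (0, π) ∧ (chi ω (0, π) ↔ c)} = 0
  · have : ∀ n π', Jc ν c (Φ n) π' = 0 := fun n π' =>
      setIntegral_measure_zero _ ((he ν c π' π).trans m0)
    simp [this]
  have mG : ∀ n, Measurable fun y : Al => Φ n (D y.1 (0, y.2)) := fun n =>
    meas_Al fun π => (h1 n).comp (meas_D (0, π))
  have mB : MeasurableSet {y : Al | y.2 = π} := measurable_snd (measurableSet_singleton π)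
  have mp : MeasurePreserving TT ((hat ν).restrict (Sc c)) ((hat ν).restrict (Sc c)) := by
    have := (hm ν).1.restrict_preimage (meas_Sc c)
    rwa [TT_Sc] at this
  have := hz Al _ TT mp (erg ν hc q0 hq c) _ mB _ C mG (fun n y => h2 n _) fun ε e0 =>
    (h3 4 ε e0).mono fun n h y => h _ _ fun k i => by
      have a := D_step y.1 (0, y.2) k i
      have b := D_step y.1 (0, y.2) 0 i
      rw [TT, D_env, D_nxt]
      simp only [D_zero, zero_add, Pi.zero_apply, Pi.sub_apply, add_comm 1 k, abs_le] at a b ⊢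
      omega
  set m := (mu ν).real {ω | Inf ω (0, π) ∧ (chi ω (0, π) ↔ c)} with hmm
  have m1 : m ≠ 0 := fun e => m0 ((measureReal_eq_zero_iff (measure_ne_top _ _)).1 e)
  have e1 : ((hat ν).restrict (Sc c)).real Set.univ = 24 * m := by
    rw [Measure.real, Measure.restrict_apply_univ, hat_apply ν (meas_Sc c),
      Finset.sum_congr rfl (f := fun π' => mu ν {ω | (ω, π') ∈ Sc c}) fun π' _ => he ν c π' π,
      Finset.sum_const, Finset.card_univ,
      Fintype.card_perm, Fintype.card_fin, nsmul_eq_mul, ENNReal.toReal_mul]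
    norm_num [Nat.factorial, hmm, Measure.real]
  have e2 : ((hat ν).restrict (Sc c)).real {y : Al | y.2 = π} = m := by
    rw [Measure.real, Measure.restrict_apply mB, hat_apply ν (mB.inter (meas_Sc c)),
      Finset.sum_eq_single π (fun π' _ n => by simp [n]) (by simp)]
    simp [hmm, Measure.real, Sc]
  have e3 : ∀ n, ∫ y in {y : Al | y.2 = π}, Φ n (D y.1 (0, y.2)) ∂((hat ν).restrict (Sc c)) =
      Jc ν c (Φ n) π := fun n => by
    rw [Measure.restrict_restrict mB, int_hat ν (mB.inter (meas_Sc c)) (mG n) fun y => h2 n _,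
      Finset.sum_eq_single π (fun π' _ n => by simp [n]) (by simp)]
    simp [Jc, Sc]
  have e4 : ∀ n, ∫ y, Φ n (D y.1 (0, y.2)) ∂((hat ν).restrict (Sc c)) =
      ∑ π', Jc ν c (Φ n) π' := fun n => int_hat ν (meas_Sc c) (mG n) fun y => h2 n _
  simp only [e1, e2, e3, e4] at this
  have := this.const_mul m⁻¹
  rw [mul_zero] at this
  refine this.congr fun n => ?_
  field_simp

theorem zed (hz : ZW) (hm : MP) (he : EM) (hc : Core) : Zed := by
  intro ν _ Φ C h1 h2 h3 π
  by_cases h : ∃ c, ν {c} = 0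
  · obtain ⟨c, hc⟩ := h
    have h0 : ∀ᵐ ω ∂(mu ν), ∀ v, ω v ≠ c := by
      rw [ae_all_iff]
      intro v
      have := Measure.infinitePi_pi (fun _ : Cl => ν) (s := ({v} : Finset Cl))
        (t := fun _ => {c}) fun _ _ => measurableSet_singleton c
      rw [Finset.prod_singleton, hc] at this
      filter_upwards [measure_eq_zero_iff_ae_notMem.1 this] with ω hω h
      exact hω (by simpa using h)
    have : ∀ n π', Jp ν (Φ n) π' = 0 := fun n π' => by
      refine setIntegral_measure_zero _ (measure_mono_null ?_ (ae_iff.1 h0))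
      intro ω hω k
      rcases cov3 _ _ _ hω.1.1 hω.1.2.1 hω.1.2.2 c with e | e | e <;> exact k _ e
    simp [Jt, this]
  simp only [not_exists] at h
  obtain ⟨c, _, hq⟩ := Finset.exists_min_image Finset.univ (fun c => ν {c}) ⟨0, by simp⟩
  have k := fun b => zc ν hz hm he hc (h c) (fun c' => hq c' (by simp)) Φ C h1 h2 h3 b π
  have := (k True).add (k False)
  rw [add_zero] at this
  refine this.congr fun n => ?_
  simp only [Jt, Jp_eq ν (h1 n) (h2 n), Finset.sum_add_distrib]; ring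

/- Exact invariance of the averaged law under shifts and reversal. -/
theorem Jt_hat {Φ : Sq → ℝ} (hΦ : Measurable Φ) {C : ℝ} (hC : ∀ d, |Φ d| ≤ C) :
    Jt ν Φ = ∫ y in {y : Al | Inf y.1 (0, y.2)}, Φ (D y.1 (0, y.2)) ∂(hat ν) :=
  (int_hat ν (S := {y : Al | Inf y.1 (0, y.2)}) (H := fun y => Φ (D y.1 (0, y.2)))
    (measurableSet_setOfPred.2 (meas_Al fun π => meas_Inf (0, π)))
    (meas_Al fun π => hΦ.comp (meas_D (0, π))) fun _ => hC _).symm

theorem Jt_move {T : Al → Al} (hT : MeasurePreserving T (hat ν) (hat ν)) {G : Sq → Sq}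
    (hG : Measurable G) (h1 : ∀ y, Inf (T y).1 (0, (T y).2) ↔ Inf y.1 (0, y.2))
    (h2 : ∀ y, D (T y).1 (0, (T y).2) = G (D y.1 (0, y.2))) {Φ : Sq → ℝ} (hΦ : Measurable Φ)
    {C : ℝ} (hC : ∀ d, |Φ d| ≤ C) : Jt ν (fun d => Φ (G d)) = Jt ν Φ := by
  have mI : MeasurableSet {y : Al | Inf y.1 (0, y.2)} :=
    measurableSet_setOfPred.2 (meas_Al fun π => meas_Inf (0, π))
  have mp := hT.restrict_preimage mI
  rw [show T ⁻¹' {y : Al | Inf y.1 (0, y.2)} = {y : Al | Inf y.1 (0, y.2)} from Set.ext h1] at mp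
  rw [Jt_hat ν (Φ := fun d => Φ (G d)) (hΦ.comp hG) fun d => hC _, Jt_hat ν hΦ hC]
  conv_rhs => rw [← mp.map_eq]
  rw [integral_map mp.measurable.aemeasurable
    (meas_Al (f := fun y => Φ (D y.1 (0, y.2))) fun π =>
      hΦ.comp (meas_D (0, π))).aestronglyMeasurable]
  simp only [h2]

theorem Jt_rev (hm : MP) {Φ : Sq → ℝ} (hΦ : Measurable Φ) {C : ℝ} (hC : ∀ d, |Φ d| ≤ C) :
    Jt ν (fun d => Φ fun k => d (1 - k) - d 1) = Jt ν Φ :=
  Jt_move ν (hm ν).2 (G := fun d k => d (1 - k) - d 1) (by fun_prop)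
    (fun y => by rw [RR, Inf_env, Inf_flip]) (fun y => by rw [RR, D_env, D_flip]) hΦ hC

theorem Jt_shift (hm : MP) {Φ : Sq → ℝ} (hΦ : Measurable Φ) {C : ℝ} (hC : ∀ d, |Φ d| ≤ C)
    (j : ℤ) : Jt ν (fun d => Φ fun k => d (j + k) - d j) = Jt ν Φ := by
  have one : ∀ j : ℤ, Jt ν (fun d => Φ fun k => d (j + 1 + k) - d (j + 1)) =
      Jt ν (fun d => Φ fun k => d (j + k) - d j) := fun j => by
    rw [← Jt_move ν (hm ν).1 (G := fun d k => d (1 + k) - d 1) (by fun_prop)
      (fun y => by rw [TT, Inf_env, Inf_nxt]) (fun y => by rw [TT, D_env, D_nxt])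
      (Φ := fun d => Φ fun k => d (j + k) - d j) (hΦ.comp (by fun_prop)) fun d => hC _]
    congr 1; funext d; congr 1; funext k
    rw [sub_sub_sub_cancel_right, add_comm 1 j, ← add_assoc, add_comm 1 j]
  induction j using Int.induction_on with
  | zero => simp only [Jt, Jp, zero_add, D_zero, sub_zero]
  | succ j ih => rw [one, ih]
  | pred j ih => rw [← one, sub_add_cancel, ih]

end Pool.Agent.MP_5f6c2d_pr.Sy
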