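import Pool.Agent.MP_5f6c2d_pr.Sy.Spec

/- Almost invariant functions of an ergodic map decorrelate from every fixed event. -/

set_option autoImplicit false
open scoped Classical ENNReal InnerProductSpace
open MeasureTheory Filter Topology

namespace Pool.Agent.MP_5f6c2d_pr.Sy

namespace Zw

theorem hil {E : Type} [NormedAddCommGroup E] [InnerProductSpace ℝ E] [CompleteSpace E]
    (U : E →ₗᵢ[ℝ] E) (g : ℕ → E) (C : ℝ) (hC : ∀ n, ‖g n‖ ≤ C)
    (hU : Tendsto (fun n => ‖U (g n) - g n‖) atTop (𝓝 0)) (f : E)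
    (hf : ∀ u, U u = u → ⟪f, u⟫_ℝ = 0) : Tendsto (fun n => ⟪f, g n⟫_ℝ) atTop (𝓝 0) := by
  have h1 : f ∈ (LinearMap.range (U.toLinearMap - LinearMap.id))ᗮᗮ := by
    refine (Submodule.mem_orthogonal' _ _).2 fun u hu => hf u ?_
    refine eq_of_norm_le_re_inner_eq_norm_sq (𝕜 := ℝ) (U.norm_map u).le ?_
    have := (Submodule.mem_orthogonal _ _).1 hu (U u - u) ⟨u, rfl⟩
    rw [inner_sub_left, real_inner_self_eq_norm_sq, sub_eq_zero] at this
    exact this
  rw [Submodule.orthogonal_orthogonal_eq_closure] at h1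
  have hC0 : 0 ≤ C := (norm_nonneg _).trans (hC 0)
  refine Metric.tendsto_nhds.2 fun ε hε => ?_
  obtain ⟨k, ⟨h, rfl⟩, hk⟩ := Metric.mem_closure_iff.1 h1 (ε / (2 * (C + 1))) (by positivity)
  have hk' : ‖f - (U h - h)‖ < ε / (2 * (C + 1)) := by rwa [dist_eq_norm] at hk
  have h2 := hU.const_mul ‖h‖
  rw [mul_zero] at h2
  filter_upwards [h2.eventually_lt_const (half_pos hε)] with n hn
  have e : ⟪f, g n⟫_ℝ = ⟪f - (U h - h), g n⟫_ℝ - ⟪U h, U (g n) - g n⟫_ℝ := by
    simp only [inner_sub_left, inner_sub_right, U.inner_map_map]; ring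
  have a1 := abs_real_inner_le_norm (f - (U h - h)) (g n)
  have a2 := abs_real_inner_le_norm (U h) (U (g n) - g n)
  rw [U.norm_map] at a2
  have a3 := mul_le_mul_of_nonneg_left (hC n) (norm_nonneg (f - (U h - h)))
  rw [lt_div_iff₀ (by positivity)] at hk'
  have a4 := norm_nonneg (f - (U h - h))
  rw [Real.dist_eq, sub_zero, e]
  refine (abs_sub _ _).trans_lt ?_
  linarith

end Zw

theorem zw : ZW := by
  intro α _ μ _ T hT hE B hB G C hG hC hε
  have erg : Ergodic T μ := ⟨hT, ⟨fun s hs h => eventuallyConst_set.2 <|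
    (hE s hs h).symm.imp (fun h => mem_ae_iff.2 h)
      fun h => measure_eq_zero_iff_ae_notMem.1 h⟩⟩
  have hm : ∀ n, MemLp (G n) 2 μ := fun n =>
    MemLp.of_bound (hG n).aestronglyMeasurable C (ae_of_all _ (hC n))
  set U := Lp.compMeasurePreservingₗᵢ (E := ℝ) (p := 2) ℝ T hT
  have hU : ∀ u : Lp ℝ 2 μ, U u =ᵐ[μ] u ∘ T := fun u => Lp.coeFn_compMeasurePreserving u hT
  set f : Lp ℝ 2 μ := μ.real Set.univ • indicatorConstLp 2 hB (measure_ne_top μ B) (1 : ℝ) -
    μ.real B • indicatorConstLp 2 MeasurableSet.univ (measure_ne_top μ _) (1 : ℝ) with hf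
  have hi : ∀ (u : Lp ℝ 2 μ) (v : α → ℝ), u =ᵐ[μ] v →
      ⟪f, u⟫_ℝ = μ.real Set.univ * ∫ x in B, v x ∂μ - μ.real B * ∫ x, v x ∂μ := by
    intro u v h
    rw [hf, inner_sub_left, real_inner_smul_left, real_inner_smul_left,
      L2.inner_indicatorConstLp_one, L2.inner_indicatorConstLp_one, Measure.restrict_univ,
      integral_congr_ae h, integral_congr_ae (ae_restrict_of_ae h)]
  set M : ℝ := measureUnivNNReal μ ^ (2 : ℝ≥0∞).toReal⁻¹
  have hM : 0 ≤ M := by positivity
  have := Zw.hil U (fun n => (hm n).toLp (G n)) (M * |C|) (fun n => ?_) ?_ f fun u hu => ?_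
  · simpa only [hi _ _ (MemLp.coeFn_toLp _)] using this
  · refine Lp.norm_le_of_ae_bound (abs_nonneg C) ?_
    filter_upwards [(hm n).coeFn_toLp] with x hx
    rw [hx]
    exact (hC n x).trans (le_abs_self C)
  · refine Metric.tendsto_nhds.2 fun ε h => ?_
    filter_upwards [hε (ε / (M + 1)) (by positivity)] with n hn
    rw [Real.dist_eq, sub_zero, abs_norm]
    refine (Lp.norm_le_of_ae_bound (C := ε / (M + 1)) (by positivity) ?_).trans_lt ?_
    · filter_upwards [Lp.coeFn_sub (U ((hm n).toLp (G n))) ((hm n).toLp (G n)),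
        hU ((hm n).toLp (G n)), (hm n).coeFn_toLp,
        hT.quasiMeasurePreserving.ae_eq_comp (hm n).coeFn_toLp] with x a1 a2 a3 a4
      rw [a1, Pi.sub_apply, a2, a3, a4]
      exact hn x
    · change M * (ε / (M + 1)) < ε
      rw [← mul_div_assoc, div_lt_iff₀ (by positivity)]
      linarith
  · have h1 := hU u
    rw [hu] at h1
    obtain ⟨c, hc⟩ := erg.ae_eq_const_of_ae_eq_comp_ae (Lp.aestronglyMeasurable u) h1.symm
    rw [hi u (fun _ => c) hc]
    simp only [integral_const, smul_eq_mul, measureReal_restrict_apply_univ]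
    ring

end Pool.Agent.MP_5f6c2d_pr.Sy
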